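import Mathlib
import Pool.Agent.R359.NablaMN

/-!
# MP_1ca6f4_lc, Q1 (affirmative): `Δ(ω+1)` implies `Δ(ω·ω+1)`

Definitions (in `Pool/Agent/R359/NablaMN.lean`): `boxTop` (box topology on `ℕ → X`),
`Nabla X` (the quotient by equality at all but finitely many coordinates, with the quotient
topology of the box topology), `MonotonicallyNormal`.  The ordinal `α` is the subspace
`Set.Iio α` of the ordinals (order topology).
-/

open Ordinal Pool.Agent.R359.NablaMN

namespace Pool.Agent.Results.MP_1ca6f4_lc.NablaMN

theorem result (h : MonotonicallyNormal (Nabla (Set.Iio (ω + 1 : Ordinal.{0})))) :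
    MonotonicallyNormal (Nabla (Set.Iio (ω * ω + 1 : Ordinal.{0}))) := by
  obtain ⟨φ, hφ⟩ := exists_inducing
  exact mn_of_inducing (G φ) (inducing_G φ hφ) h

end Pool.Agent.Results.MP_1ca6f4_lc.NablaMN
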